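import Mathlib
import Pool.Agent.Q63.PC.Defs

/-!
# Voisin's conjecture for elementary abelian 2-coverings of the plane: definitions
-/

set_option autoImplicit false

namespace Pool.Agent.Q63.VO

open Pool.Agent.Q63.PC

open Classical in
/-- The geometric genus of the covering of the plane with the group of characters `Λ`: `X / ker a` is a double
plane branched over a curve of degree `branch d a`, and `H^0(K + L_a)` has dimension
`(l - 1) (l - 2) / 2`, `l = branch d a / 2`. -/
noncomputable def geomGenus {s : ℕ} (d : Fin s → ℕ) (Λ : AddSubgroup (Fin s → ZMod 2)) : ℕ :=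
  ∑ a with a ∈ Λ, (branch d a / 2 - 1).choose 2

/-- `X` is (a desingularisation of) a covering of the complex projective plane with the group `G`, a quotient of
`(ℤ/2)^s`, branched over smooth curves `D_i` of degrees `d i`, `i < s`, whose union has normal crossings; `Λ` is
the group of the characters of `G`. `V` is the tensor product with `ℂ` of the group of Albanese-trivial zero-cycles
of `X`, `A n` that of the Chow group of zero-cycles of `X^n`, and `μ n` is the exterior product
`(a_1, …, a_n) ↦ a_1 × … × a_n`. -/
structure VoisinData {s : ℕ} (d : Fin s → ℕ) (Λ : AddSubgroup (Fin s → ZMod 2))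
    (ψ : AddChar (ZMod 2) ℂ) {V : Type} [AddCommGroup V] [Module ℂ V] {A : ℕ → Type}
    [∀ n, AddCommGroup (A n)] [∀ n, Module ℂ (A n)]
    (ρ : Representation ℂ (Multiplicative (Fin s → ZMod 2)) V)
    (μ : ∀ n, MultilinearMap ℂ (fun _ : Fin n => V) (A n)) : Prop where
  /-- only characters of `G` occur -/
  characters : ∀ (a : Fin s → ZMod 2) (v : V), v ≠ 0 → Eigen ψ ρ a v → a ∈ Λ
  /-- the branch curves of double planes have even degree -/
  even : ∀ a ∈ Λ, Even (branch d a)
  /-- double planes branched in degree at most four are rational -/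
  rational : ∀ a ∈ Λ, branch d a ≤ 4 → ∀ v, Eigen ψ ρ a v → v = 0
  /-- Voisin's conjecture is known for the K3 surface `X / ker a` if its branch curve, of degree six, is the union of
  two cubics or of a quartic and a conic, that is if some of the `D_i` in it have the total degree three or
  two: `x × y = y × x` for Albanese-trivial zero-cycles `x`, `y`; so two factors in the `a`-part of `V` can be
  exchanged in any exterior product. -/
  k3 : ∀ a ∈ Λ, branch d a = 6 →
    (∃ T : Finset (Fin s), (∀ i ∈ T, a i ≠ 0) ∧ (∑ i ∈ T, d i = 3 ∨ ∑ i ∈ T, d i = 2)) →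
    ∀ (n : ℕ) (i j : Fin n) (v : Fin n → V), i ≠ j → Eigen ψ ρ a (v i) → Eigen ψ ρ a (v j) →
      μ n (v ∘ Equiv.swap i j) = μ n v

end Pool.Agent.Q63.VO
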