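import Mathlib
import Pool.Agent.Q63.VO.Defs
import Pool.Agent.Q63.PC.Main

set_option autoImplicit false

namespace Pool.Agent.Q63.VO

open Multiplicative Pool.Agent.Q63.PC Pool.Agent.Q63.KU

variable {s : ℕ} {d : Fin s → ℕ}

/-- sets of curves of degrees at most four with total degree six -/
lemma exists_split {T : Finset (Fin s)} (h1 : ∀ i ∈ T, 1 ≤ d i) (h4 : ∀ i ∈ T, d i ≤ 4)
    (h6 : ∑ i ∈ T, d i = 6) : ∃ S ⊆ T, ∑ i ∈ S, d i = 3 ∨ ∑ i ∈ S, d i = 2 := by
  by_cases h : ∃ i ∈ T, d i = 2 ∨ d i = 3
  · obtain ⟨i, hi, h | h⟩ := h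
    · exact ⟨{i}, by simpa using hi, Or.inr (by simpa using h)⟩
    · exact ⟨{i}, by simpa using hi, Or.inl (by simpa using h)⟩
  · push Not at h
    have hsplit := Finset.sum_filter_add_sum_filter_not T (fun i => d i = 1) d
    have hones : ∑ i ∈ T with d i = 1, d i = (T.filter fun i => d i = 1).card := by
      rw [Finset.card_eq_sum_ones]
      exact Finset.sum_congr rfl fun i hi => (Finset.mem_filter.1 hi).2
    have hfours : ∑ i ∈ T with ¬ d i = 1, d i = 4 * (T.filter fun i => ¬ d i = 1).card := by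
      rw [Finset.card_eq_sum_ones, Finset.mul_sum]
      refine Finset.sum_congr rfl fun i hi => ?_
      obtain ⟨hi, hne⟩ := Finset.mem_filter.1 hi
      have a1 := h1 i hi
      have a2 := h4 i hi
      have a3 := h i hi
      omega
    have hc : 2 ≤ (T.filter fun i => d i = 1).card := by omega
    obtain ⟨i, hi, j, hj, hij⟩ := Finset.one_lt_card.1 (by omega : 1 < (T.filter fun i => d i = 1).card)
    rw [Finset.mem_filter] at hi hj
    refine ⟨{i, j}, ?_, Or.inr ?_⟩
    · intro x hx
      simp only [Finset.mem_insert, Finset.mem_singleton] at hx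
      rcases hx with rfl | rfl
      · exact hi.1
      · exact hj.1
    · rw [Finset.sum_insert (by simpa using hij), Finset.sum_singleton]
      omega

variable {Λ : AddSubgroup (Fin s → ZMod 2)} {ψ : AddChar (ZMod 2) ℂ} {V : Type} [AddCommGroup V]
  [Module ℂ V] {A : ℕ → Type} [∀ n, AddCommGroup (A n)] [∀ n, Module ℂ (A n)]
  {ρ : Representation ℂ (Multiplicative (Fin s → ZMod 2)) V}
  {μ : ∀ n, MultilinearMap ℂ (fun _ : Fin n => V) (A n)}

/-- alternation kills two exchangeable arguments -/
lemma alt_zero {n : ℕ} {E : Type} [AddCommGroup E] [Module ℂ E]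
    (f : MultilinearMap ℂ (fun _ : Fin n => V) E) (P : V → Prop)
    (hf : ∀ (i j : Fin n) (v : Fin n → V), i ≠ j → P (v i) → P (v j) → f (v ∘ Equiv.swap i j) = f v)
    {i j : Fin n} (hij : i ≠ j) {w : Fin n → V} (hi : P (w i)) (hj : P (w j)) :
    MultilinearMap.alternatization f w = 0 := by
  have h1 : MultilinearMap.alternatization f (w ∘ Equiv.swap i j) =
      - MultilinearMap.alternatization f w := AlternatingMap.map_swap _ _ hij
  have h2 : MultilinearMap.alternatization f (w ∘ Equiv.swap i j) =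
      MultilinearMap.alternatization f w := by
    rw [MultilinearMap.alternatization_apply, MultilinearMap.alternatization_apply]
    refine Finset.sum_congr rfl fun σ _ => ?_
    congr 1
    rw [MultilinearMap.domDomCongr_apply, MultilinearMap.domDomCongr_apply]
    have h3 : (fun k => (w ∘ Equiv.swap i j) (σ k)) =
        (fun k => w (σ k)) ∘ Equiv.swap (σ.symm i) (σ.symm j) := by
      funext k
      simp only [Function.comp]
      congr 1
      have h4 := Equiv.swap_apply_apply σ.symm i j
      rw [h4]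
      simp
    rw [h3]
    exact hf _ _ _ (by simpa using hij) (by simpa using hi) (by simpa using hj)
  have h3 : (2 : ℂ) • MultilinearMap.alternatization f w = 0 := by
    rw [two_smul]
    nth_rewrite 1 [← h2]
    rw [h1, neg_add_cancel]
  exact (smul_eq_zero.1 h3).resolve_left two_ne_zero

theorem voisin (hψ : ψ.IsPrimitive) (hd1 : ∀ i, 1 ≤ d i) (hd4 : ∀ i, d i ≤ 4)
    (hX : VoisinData d Λ ψ ρ μ) (h6 : ∀ a ∈ Λ, branch d a ≤ 6) {n : ℕ} (hn : geomGenus d Λ < n)
    (v : Fin n → V) : MultilinearMap.alternatization (μ n) v = 0 := by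
  classical
  have hcard : geomGenus d Λ = (Finset.univ.filter fun a => a ∈ Λ ∧ branch d a = 6).card := by
    unfold geomGenus
    rw [Finset.card_eq_sum_ones, Finset.sum_filter, Finset.sum_filter]
    refine Finset.sum_congr rfl fun a _ => ?_
    by_cases ha : a ∈ Λ
    · rw [if_pos ha]
      obtain ⟨k, hk⟩ := hX.even a ha
      have h7 := h6 a ha
      by_cases hb : branch d a = 6
      · rw [if_pos ⟨ha, hb⟩, hb]
        rfl
      · rw [if_neg (by tauto)]
        have : branch d a / 2 - 1 < 2 := by omega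
        exact Nat.choose_eq_zero_of_lt this
    · rw [if_neg ha, if_neg (by tauto)]
  have h1 : v = fun i => ∑ a, comp ρ ψ (v i) a := by
    funext i
    exact (sum_comp hψ (v i)).symm
  rw [h1]
  have h2 := MultilinearMap.map_sum (MultilinearMap.alternatization (μ n)).toMultilinearMap
    (fun i (a : Fin s → ZMod 2) => comp ρ ψ (v i) a)
  have h3 : MultilinearMap.alternatization (μ n) (fun i => ∑ a, comp ρ ψ (v i) a) =
      (MultilinearMap.alternatization (μ n)).toMultilinearMap (fun i => ∑ a, comp ρ ψ (v i) a) := rfl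
  rw [h3, h2]
  refine Finset.sum_eq_zero fun r _ => ?_
  set w : Fin n → V := fun i => comp ρ ψ (v i) (r i) with hw
  have hwe : ∀ i, Eigen ψ ρ (r i) (w i) := fun i => eigen_comp (v i) (r i)
  show MultilinearMap.alternatization (μ n) w = 0
  by_cases hz : ∃ i, w i = 0
  · obtain ⟨i, hi⟩ := hz
    exact (MultilinearMap.alternatization (μ n)).map_coord_zero i hi
  · push Not at hz
    have hr : ∀ i, r i ∈ Finset.univ.filter fun a => a ∈ Λ ∧ branch d a = 6 := by
      intro i
      have ha := hX.characters (r i) (w i) (hz i) (hwe i)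
      refine Finset.mem_filter.2 ⟨Finset.mem_univ _, ha, ?_⟩
      obtain ⟨k, hk⟩ := hX.even _ ha
      have h7 := h6 _ ha
      by_contra hb
      exact hz i (hX.rational _ ha (by omega) _ (hwe i))
    obtain ⟨i, -, j, -, hij, hrij⟩ := Finset.exists_ne_map_eq_of_card_lt_of_maps_to
      (s := (Finset.univ : Finset (Fin n))) (t := Finset.univ.filter fun a => a ∈ Λ ∧ branch d a = 6)
      (f := r) (by rw [← hcard, Finset.card_univ, Fintype.card_fin]; exact hn) (fun i _ => hr i)
    obtain ⟨ha, hb⟩ := (Finset.mem_filter.1 (hr i)).2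
    obtain ⟨T, hT, hT'⟩ := exists_split (T := Finset.univ.filter fun l => r i l ≠ 0)
      (fun i _ => hd1 i) (fun i _ => hd4 i) hb
    refine alt_zero (μ n) (fun x => Eigen ψ ρ (r i) x) ?_ hij (hwe i) (by rw [hrij]; exact hwe j)
    intro i' j' v' hne hi' hj'
    exact hX.k3 (r i) ha hb ⟨T, fun l hl => (Finset.mem_filter.1 (hT hl)).2, hT'⟩ n i' j' v' hne hi' hj'

end Pool.Agent.Q63.VO
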